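import Mathlib
import Pool.Agent.Lib.MP_ccf7f2_nt.Arith

namespace Pool.Agent.Results.MP_ccf7f2_nt.Integrality

open Nat Finset Pool.Agent.Lib.MP_ccf7f2_nt

/-- the integer `27^j (3 u - v/3)` -/
lemma exists_term (N j : ℕ) (hj : j < N) :
    ∃ t : ℤ, (3 : ℤ) * t = 27 ^ j * (9 * (uu N j : ℤ) - (vv N j : ℤ)) := by
  rcases Nat.eq_zero_or_pos j with rfl | hp
  · obtain ⟨m, rfl⟩ : ∃ m, N = m + 1 := ⟨N - 1, by omega⟩
    have h1 := AA_spec (m + 1)
    have h2 := Nat.add_one_mul_choose_eq (3 * m + 2) m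
    have h3 : Nat.choose (3 * (m + 1)) (m + 1) = 3 * Nat.choose (3 * m + 2) m := by
      apply Nat.eq_of_mul_eq_mul_right (Nat.succ_pos m)
      rw [show 3 * m + 2 + 1 = 3 * (m + 1) by ring] at h2
      rw [Nat.succ_eq_add_one, ← h2]; ring
    rw [vv_zero, h1, h3]
    refine ⟨3 * (uu (m + 1) 0 : ℤ) -
      (Nat.choose (3 * m + 2) m : ℤ) * (((m : ℤ) + 1) * (Nat.choose (2 * m) m : ℤ)), ?_⟩
    push_cast
    ring
  · obtain ⟨i, rfl⟩ : ∃ i, j = i + 1 := ⟨j - 1, by omega⟩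
    exact ⟨9 * 27 ^ i * (9 * (uu N (i + 1) : ℤ) - (vv N (i + 1) : ℤ)), by rw [pow_succ]; ring⟩

lemma exists_sum (N : ℕ) :
    ∃ B : ℤ, (3 : ℤ) * B = - ∑ j ∈ range N, 27 ^ j * (9 * (uu N j : ℤ) - (vv N j : ℤ)) := by
  choose! t ht using fun j (hj : j < N) => exists_term N j hj
  refine ⟨- ∑ j ∈ range N, t j, ?_⟩
  rw [mul_neg, Finset.mul_sum]
  congr 1
  exact Finset.sum_congr rfl (fun j hj => ht j (Finset.mem_range.mp hj))

/-- a chosen integer `B_N` with `3 B_N = - ∑ ...` -/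
noncomputable def BB (N : ℕ) : ℤ := (exists_sum N).choose

lemma BB_spec (N : ℕ) :
    (3 : ℤ) * BB N = - ∑ j ∈ range N, 27 ^ j * (9 * (uu N j : ℤ) - (vv N j : ℤ)) :=
  (exists_sum N).choose_spec

lemma TT_BB (N : ℕ) : TT N = 2 * (N : ℤ) * (Nat.centralBinom N : ℤ) * BB N := by
  have h1 := TT_eq N
  have h2 : RR N = - (2 * (Nat.centralBinom N : ℚ) * (BB N : ℚ)) := by
    have h3 : (3 : ℚ) * (BB N : ℚ) =
        - ∑ j ∈ range N, 27 ^ j * (9 * (uu N j : ℚ) - (vv N j : ℚ)) := by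
      exact_mod_cast BB_spec N
    have h4 : (BB N : ℚ) = - ∑ j ∈ range N, 27 ^ j * (3 * (uu N j : ℚ) - (vv N j : ℚ) / 3) := by
      have : ∑ j ∈ range N, (27 : ℚ) ^ j * (9 * (uu N j : ℚ) - (vv N j : ℚ)) =
          3 * ∑ j ∈ range N, 27 ^ j * (3 * (uu N j : ℚ) - (vv N j : ℚ) / 3) := by
        rw [Finset.mul_sum]
        exact Finset.sum_congr rfl (fun j _ => by ring)
      rw [this] at h3
      linarith
    rw [h4, RR, Finset.sum_congr rfl (fun j hj => rr_eq N j (Finset.mem_range.mp hj)),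
      mul_neg, neg_neg, Finset.mul_sum]
    exact Finset.sum_congr rfl (fun j _ => by ring)
  rw [h2] at h1
  have : (TT N : ℚ) = ((2 * (N : ℤ) * (Nat.centralBinom N : ℤ) * BB N : ℤ) : ℚ) := by
    rw [h1]; push_cast; ring
  exact_mod_cast this

lemma dvd_27 (N : ℕ) : ((2 * N + 1 : ℕ) : ℤ) ∣ 27 * BB N := by
  have h1 := TT_succ N
  rw [TT_BB, TT_BB, ← Nat.centralBinom_eq_two_mul_choose, ← AA_spec] at h1
  have h2 : ((N : ℤ) + 1) * (Nat.centralBinom (N + 1) : ℤ) =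
      2 * (2 * N + 1) * (Nat.centralBinom N : ℤ) := by
    exact_mod_cast Nat.succ_mul_centralBinom_succ N
  have hc : (Nat.centralBinom N : ℤ) ≠ 0 := by exact_mod_cast Nat.centralBinom_ne_zero N
  have h3 : (Nat.centralBinom N : ℤ) * (4 * (2 * (N : ℤ) + 1) * BB (N + 1)) =
      (Nat.centralBinom N : ℤ) * (-54 * (N : ℤ) * BB N + (15 * (N : ℤ) + 4) *
        (Nat.centralBinom N : ℤ) * ((2 * (N : ℤ) + 1) * (AA N : ℤ))) := by
    push_cast at h1
    calc (Nat.centralBinom N : ℤ) * (4 * (2 * (N : ℤ) + 1) * BB (N + 1))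
        = 2 * (2 * (2 * (N : ℤ) + 1) * (Nat.centralBinom N : ℤ)) * BB (N + 1) := by ring
      _ = 2 * (((N : ℤ) + 1) * (Nat.centralBinom (N + 1) : ℤ)) * BB (N + 1) := by rw [h2]
      _ = 2 * ((N : ℤ) + 1) * (Nat.centralBinom (N + 1) : ℤ) * BB (N + 1) := by ring
      _ = _ := by rw [h1]; ring
  have h4 := mul_left_cancel₀ hc h3
  have h5 : ((2 * N + 1 : ℕ) : ℤ) ∣ (2 * (N : ℤ)) * (27 * BB N) := by
    refine ⟨(15 * (N : ℤ) + 4) * (Nat.centralBinom N : ℤ) * (AA N : ℤ) - 4 * BB (N + 1), ?_⟩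
    push_cast
    linarith
  have hco : IsCoprime ((2 * N + 1 : ℕ) : ℤ) (2 * (N : ℤ)) := ⟨1, -1, by push_cast; ring⟩
  exact hco.dvd_of_dvd_mul_left h5

/-- predicate: `3(2N+1)` divides `x` up to a factor prime to 3 -/
def Good (Q : ℤ) (x : ℤ) : Prop := ∃ w : ℤ, ¬ (3 : ℤ) ∣ w ∧ 3 * Q ∣ w * x

lemma Good.add {Q x y : ℤ} (hx : Good Q x) (hy : Good Q y) : Good Q (x + y) := by
  obtain ⟨w, hw, a, ha⟩ := hx
  obtain ⟨v, hv, b, hb⟩ := hy
  refine ⟨w * v, ?_, v * a + w * b, ?_⟩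
  · intro h
    rcases (Int.prime_three.dvd_mul).mp h with h | h
    · exact hw h
    · exact hv h
  · calc w * v * (x + y) = v * (w * x) + w * (v * y) := by ring
      _ = _ := by rw [ha, hb]; ring

lemma Good.neg {Q x : ℤ} (hx : Good Q x) : Good Q (-x) := by
  obtain ⟨w, hw, a, ha⟩ := hx
  exact ⟨w, hw, -a, by rw [mul_neg, ha]; ring⟩

lemma Good.zero (Q : ℤ) : Good Q 0 := ⟨1, by norm_num, 0, by ring⟩

lemma Good.sum {Q : ℤ} {s : Finset ℕ} {f : ℕ → ℤ} (h : ∀ j ∈ s, Good Q (f j)) :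
    Good Q (∑ j ∈ s, f j) := by
  classical
  induction s using Finset.induction_on with
  | empty => simpa using Good.zero Q
  | insert a s ha ih =>
    rw [Finset.sum_insert ha]
    exact (h a (Finset.mem_insert_self _ _)).add
      (ih (fun j hj => h j (Finset.mem_insert_of_mem hj)))

lemma ww_int (k : ℕ) : ¬ (3 : ℤ) ∣ (ww k : ℤ) := by
  intro h
  exact ww_not_dvd k (by exact_mod_cast h)

lemma good_uu (N j : ℕ) (hj : j < N) :
    Good ((2 * N + 1 : ℕ) : ℤ) (27 ^ j * (9 * (uu N j : ℤ))) := by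
  by_cases hc : 2 * (j + 1) ≤ N
  · obtain ⟨m, rfl⟩ : ∃ m, N = m + (j + 1) := ⟨N - j - 1, by omega⟩
    obtain ⟨d, hd⟩ : ∃ d, m = j + 1 + d := ⟨m - (j + 1), by omega⟩
    have h := uu_key m j d hd
    set c := Nat.choose (2 * m - 1) m * Nat.choose (m + (j + 1)) d * (2 * (j + 1))! *
          AA (m + (j + 1)) with hcdef
    refine ⟨(ww (j + 1) : ℤ), ww_int _, 3 ^ (2 * j) * (c : ℤ), ?_⟩
    have h' : (uu (m + (j + 1)) j : ℤ) * (3 ^ (j + 1) * (ww (j + 1) : ℤ)) =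
        ((2 * (m + (j + 1)) + 1 : ℕ) : ℤ) * (c : ℤ) := by exact_mod_cast h
    have e : (27 : ℤ) ^ j * 9 = 3 ^ (j + 1) * 3 ^ (2 * j + 1) := by
      rw [← pow_add, show j + 1 + (2 * j + 1) = 3 * j + 2 by ring, pow_add, pow_mul]
      norm_num
    calc (ww (j + 1) : ℤ) * (27 ^ j * (9 * (uu (m + (j + 1)) j : ℤ)))
        = (27 ^ j * 9) * ((uu (m + (j + 1)) j : ℤ) * (ww (j + 1) : ℤ)) := by ring
      _ = 3 ^ (2 * j + 1) *
            ((uu (m + (j + 1)) j : ℤ) * (3 ^ (j + 1) * (ww (j + 1) : ℤ))) := by rw [e]; ring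
      _ = _ := by rw [h', pow_succ]; ring
  · have : uu N j = 0 := by unfold uu; rw [if_neg hc]
    rw [this]; simpa using Good.zero _

lemma good_vv (N j : ℕ) (hj : j < N) (hj0 : 1 ≤ j) :
    Good ((2 * N + 1 : ℕ) : ℤ) (27 ^ j * (vv N j : ℤ)) := by
  by_cases hc : 2 * j + 1 ≤ N
  · obtain ⟨m, rfl⟩ : ∃ m, N = m + j + 1 := ⟨N - j - 1, by omega⟩
    obtain ⟨d, hd⟩ : ∃ d, m = j + d := ⟨m - j, by omega⟩
    have h := vv_key m j d hd
    set c := Nat.choose (2 * m) m * Nat.choose (m + j + 1) d * (2 * j + 1)! * AA (m + j + 1)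
      with hcdef
    obtain ⟨i, hi⟩ : ∃ i, j = i + 1 := ⟨j - 1, by omega⟩
    refine ⟨(3 * (j : ℤ) + 1) * (ww j : ℤ), ?_, 3 ^ (2 * i + 1) * (c : ℤ), ?_⟩
    · intro hh
      rcases (Int.prime_three.dvd_mul).mp hh with hh | hh
      · omega
      · exact ww_int j hh
    have h' : (vv (m + j + 1) j : ℤ) * ((3 * (j : ℤ) + 1) * 3 ^ j * (ww j : ℤ)) =
        ((2 * (m + j + 1) + 1 : ℕ) : ℤ) * (c : ℤ) := by exact_mod_cast h
    have e : (27 : ℤ) ^ j = 3 ^ j * 3 ^ (2 * j) := by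
      rw [← pow_add, show j + 2 * j = 3 * j by ring, pow_mul]
      norm_num
    have e2 : (3 : ℤ) ^ (2 * j) = 3 * 3 ^ (2 * i + 1) := by
      rw [hi, show 2 * (i + 1) = (2 * i + 1) + 1 by ring, pow_succ]; ring
    calc (3 * (j : ℤ) + 1) * (ww j : ℤ) * (27 ^ j * (vv (m + j + 1) j : ℤ))
        = 3 ^ (2 * j) *
            ((vv (m + j + 1) j : ℤ) * ((3 * (j : ℤ) + 1) * 3 ^ j * (ww j : ℤ))) := by
          rw [e]; ring
      _ = _ := by rw [h', e2]; ring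
  · have : vv N j = 0 := by unfold vv; rw [if_neg hc]
    rw [this]; simpa using Good.zero _

lemma good_main (N : ℕ) (hN : 1 ≤ N) :
    Good ((2 * N + 1 : ℕ) : ℤ) (3 * BB N - (vv N 0 : ℤ)) := by
  have h1 : 3 * BB N - (vv N 0 : ℤ) =
      - (∑ j ∈ range N, 27 ^ j * (9 * (uu N j : ℤ))) +
        ∑ j ∈ (range N).erase 0, 27 ^ j * (vv N j : ℤ) := by
    rw [BB_spec]
    have h2 : ∑ j ∈ range N, (27 : ℤ) ^ j * (vv N j : ℤ) =
        (vv N 0 : ℤ) + ∑ j ∈ (range N).erase 0, 27 ^ j * (vv N j : ℤ) := by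
      rw [← Finset.add_sum_erase (range N) _ (Finset.mem_range.mpr (show 0 < N by omega))]
      simp
    have h3 : ∑ j ∈ range N, (27 : ℤ) ^ j * (9 * (uu N j : ℤ) - (vv N j : ℤ)) =
        ∑ j ∈ range N, 27 ^ j * (9 * (uu N j : ℤ)) - ∑ j ∈ range N, 27 ^ j * (vv N j : ℤ) := by
      rw [← Finset.sum_sub_distrib]
      exact Finset.sum_congr rfl (fun j _ => by ring)
    rw [h3, h2]; ring
  rw [h1]
  refine (Good.sum (fun j hj => good_uu N j (Finset.mem_range.mp hj))).neg.add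
    (Good.sum (fun j hj => ?_))
  rw [Finset.mem_erase, Finset.mem_range] at hj
  exact good_vv N j hj.2 (by omega)

/-- there is an integer `y` with `3 B_N = (2N+1) y` and `y ≡ N C(2N-2,N-1) A(N) (mod 3)` -/
lemma exists_y (m : ℕ) : ∃ y : ℤ, 3 * BB (m + 1) = ((2 * (m + 1) + 1 : ℕ) : ℤ) * y ∧
    (3 : ℤ) ∣ y - (AA (m + 1) : ℤ) * (((m : ℤ) + 1) * (Nat.choose (2 * m) m : ℤ)) := by
  obtain ⟨w, hw, z, hz⟩ := good_main (m + 1) (by omega)
  have h27 := dvd_27 (m + 1)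
  rw [vv_zero] at hz
  set Q : ℤ := ((2 * (m + 1) + 1 : ℕ) : ℤ) with hQ
  set Y : ℤ := (AA (m + 1) : ℤ) * (((m : ℤ) + 1) * (Nat.choose (2 * m) m : ℤ)) with hY
  have hv : (((2 * (m + 1) + 1) * AA (m + 1) * ((m + 1) * Nat.choose (2 * m) m) : ℕ) : ℤ) =
      Q * Y := by rw [hQ, hY]; push_cast; ring
  rw [hv] at hz
  have hQ0 : Q ≠ 0 := by rw [hQ]; positivity
  have hco : IsCoprime w 3 := by
    rw [isCoprime_comm]
    exact (Int.prime_three.coprime_iff_not_dvd).mpr hw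
  have hco9 : IsCoprime w 9 := by
    have := hco.pow_right (n := 2)
    norm_num at this
    exact this
  obtain ⟨s, t, hst⟩ := hco9
  have hd1 : Q ∣ w * (3 * BB (m + 1)) := by
    refine ⟨3 * z + w * Y, ?_⟩
    linarith
  have hd : Q ∣ 3 * BB (m + 1) := by
    have : 3 * BB (m + 1) = s * (w * (3 * BB (m + 1))) + t * (27 * BB (m + 1)) := by
      calc 3 * BB (m + 1) = (s * w + t * 9) * (3 * BB (m + 1)) := by rw [hst]; ring
        _ = _ := by ring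
    rw [this]
    exact (hd1.mul_left s).add (h27.mul_left t)
  obtain ⟨y, hy⟩ := hd
  refine ⟨y, hy, ?_⟩
  rw [hy] at hz
  have h3 : Q * (w * (y - Y)) = Q * (3 * z) := by linarith
  have h4 := mul_left_cancel₀ hQ0 h3
  have h5 : (3 : ℤ) ∣ w * (y - Y) := ⟨z, h4⟩
  rcases (Int.prime_three.dvd_mul).mp h5 with h | h
  · exact absurd h hw
  · exact h

/-- **Q2 of the problem.** -/
theorem result : ∀ n : ℕ, 1 ≤ n →
    let T : ℤ := ∑ j ∈ Finset.range n, (-27 : ℤ) ^ (n - 1 - j) * (15 * (j : ℤ) + 4) *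
      (Nat.choose (2 * j) j : ℤ) ^ 2 * (Nat.choose (3 * j) j : ℤ)
    let a : ℚ := (T : ℚ) / (2 * (n : ℚ) * (2 * (n : ℚ) + 1) * (Nat.choose (2 * n) n : ℚ))
    ((∀ m : ℕ, 1 ≤ m → 2 * n + 1 ≠ 3 ^ m) → ∃ z : ℤ, a = z) ∧
    ((∃ m : ℕ, 1 ≤ m ∧ 2 * n + 1 = 3 ^ m) → ∃ z : ℤ, 3 * a = z ∧ ¬ (3 : ℤ) ∣ z) := by
  intro n hn T a
  obtain ⟨m, rfl⟩ : ∃ m, n = m + 1 := ⟨n - 1, by omega⟩
  obtain ⟨y, hy, hmod⟩ := exists_y m
  have hT : T = 2 * ((m + 1 : ℕ) : ℤ) * (Nat.centralBinom (m + 1) : ℤ) * BB (m + 1) :=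
    TT_BB (m + 1)
  have hc : (Nat.choose (2 * (m + 1)) (m + 1) : ℚ) ≠ 0 := by
    rw [← Nat.centralBinom_eq_two_mul_choose]
    exact_mod_cast Nat.centralBinom_ne_zero (m + 1)
  have h3a : 3 * a = y := by
    have hy' : (3 : ℚ) * (BB (m + 1) : ℚ) = (2 * ((m : ℚ) + 1) + 1) * (y : ℚ) := by
      exact_mod_cast hy
    have g1 : ((m : ℚ) + 1) ≠ 0 := by positivity
    have g2 : (2 * ((m : ℚ) + 1) + 1) ≠ 0 := by positivity
    change 3 * ((T : ℚ) / (2 * ((m + 1 : ℕ) : ℚ) * (2 * ((m + 1 : ℕ) : ℚ) + 1) *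
      (Nat.choose (2 * (m + 1)) (m + 1) : ℚ))) = y
    rw [hT, Nat.centralBinom_eq_two_mul_choose]
    push_cast
    field_simp
    linear_combination hy'
  constructor
  · intro hpow
    have hA : 3 ∣ AA (m + 1) := by
      apply three_dvd_AA
      rintro ⟨l, hl⟩
      rcases Nat.eq_zero_or_pos l with rfl | hl0
      · simp at hl
      · exact hpow l hl0 hl
    have hA' : (3 : ℤ) ∣ (AA (m + 1) : ℤ) := by exact_mod_cast hA
    have hy3 : (3 : ℤ) ∣ y := by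
      have := (hA'.mul_right (((m : ℤ) + 1) * (Nat.choose (2 * m) m : ℤ)))
      have h2 := hmod.add this
      simpa using h2
    obtain ⟨z, hz⟩ := hy3
    refine ⟨z, ?_⟩
    have : (3 : ℚ) * a = 3 * z := by rw [h3a, hz]; push_cast; ring
    linarith
  · rintro ⟨l, hl0, hl⟩
    refine ⟨y, h3a, ?_⟩
    intro hy3
    have hYd : (3 : ℤ) ∣ (AA (m + 1) : ℤ) * (((m : ℤ) + 1) * (Nat.choose (2 * m) m : ℤ)) := by
      have := dvd_sub hy3 hmod
      simpa using this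
    have hA := not_three_dvd_AA (m + 1) ⟨l, hl⟩
    obtain ⟨i, rfl⟩ : ∃ i, l = i + 1 := ⟨l - 1, by omega⟩
    have hm : m = 3 * nn i := by
      have := nn_spec (i + 1)
      rw [← hl] at this
      simp only [nn] at this
      omega
    have hC := choose_three_nn i
    rw [← hm] at hC
    rcases (Int.prime_three.dvd_mul).mp hYd with h | h
    · exact hA (by exact_mod_cast h)
    · rcases (Int.prime_three.dvd_mul).mp h with h | h
      · omega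
      · exact hC (by exact_mod_cast h)

end Pool.Agent.Results.MP_ccf7f2_nt.Integrality
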